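import Pool.Agent.U410.CO.Hv
import Pool.Agent.N496.CV.L2Pf

/-!
# The conjecture of Davis and Okun for all covers of the closed right-angled reflection manifolds with few mirrors

Let `L` be the flag complex of a finite graph `G` on `V`. If `L` is a flag triangulation of the sphere of dimension
`n - 1` then the Davis complex `Σ` of the right-angled Coxeter group `W G` is a contractible `n`-manifold, the kernel
`Γ` of `W G → (ℤ/2)^V` is torsion free of finite index, `M = Σ / Γ` is a closed aspherical `n`-manifold, tiled by
`2 ^ |V|` right-angled cells with `|V|` mirrors, and the manifolds `Σ / K`, `K ≤ Γ`, are all its connected covers:
aspherical `n`-manifolds, compact or not, with finitely generated or infinitely generated fundamental groups.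

We show that all the `L²`-Betti numbers of all these manifolds above the middle dimension `n / 2` vanish, if `L` is
*thin*. For example it is enough that the number `N` of mirrors is at most `5 n / 2`, or that `N ≤ 3 n - c`, where `c`
is the number of join factors of `L` (a complex of dimension `n - 1` which is not a join has at least `3 n - 1`
vertices, so these are the joins of smallest possible factors), or `n = 3` and there is a vertex such that each
triangle of `L` contains a neighbour of it or the vertex itself. There are thin triangulations of the sphere with
arbitrarily many vertices in all dimensions `n - 1 ≥ 1`.

Idea: for odd `n = 2 m + 3` remove the vertices of `L` one by one: if the non-neighbours of `v` span a tree `T`, and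
`a` is a leaf of `T` with the neighbour `b` then the link of a vertex whose only neighbour in `T` is `a` is the
suspension of a link of an edge with the apices `v` and `a`; when all these vertices have been removed, the link of
`a` is a cone with the apex `b` over a part of the link of the edge `a b`. At the end we have the suspension, with the
apices `v` and the last vertex of `T`, of a part of the link of `v`. In all the cases the bound for the degrees of the
nonzero `L²`-Betti numbers of the arbitrary subgroups `K` is at most `m` for the links, and so it is at most `m + 1`
for `L` (`Pool.Agent.U410.CO.th_tree`). The passage from the links to the complex, for cones, suspensions and added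
vertices and for all the subgroups `K` at the same time, is from the start file library `Pool.Agent.N496.CV`.
-/

set_option autoImplicit false

namespace Pool.Agent.Results.MP_4f4d9f_gt.FewMirrorsAllCovers

open Pool.Agent.W907.SG Pool.Agent.W461.SGN Pool.Agent.N496.CV
open Pool.Agent.U410.CO (Thin)

/-- Let `G` be a finite graph with the set `V` of vertices whose flag complex is a thin normal pseudo-manifold of
dimension `n - 1` (`Thin G n V`), for example a flag triangulation of the sphere with at most `5 n / 2` vertices. For
all subgroups `K` of the kernel of `W G → (ℤ/2)^V`, of finite or infinite index, finitely generated or not, and all
`k > n / 2` the `k`-th `L²`-Betti number of `K` is zero. -/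
theorem result : ∀ (n : ℕ) (V : Type) [Fintype V] [LinearOrder V] (G : SimpleGraph V),
    Thin G n (Finset.univ : Finset V) →
    ∀ K : Subgroup (W G), K ≤ (th G).ker → ∀ k : ℕ, n < 2 * k → HasL2Betti K k 0 := by
  intro n V _ _ G hT K hK k hk
  have h := hasL2Betti K k
  rw [Pool.Agent.U410.CO.l2_th hT.th K hK k (by omega)] at h
  exact h

end Pool.Agent.Results.MP_4f4d9f_gt.FewMirrorsAllCovers
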