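import Mathlib

/-!
# L²-Betti numbers of aspherical manifolds above the middle dimension: finiteness suffices

`L2Theory` collects the known facts used. The manifolds are connected and aspherical, compact or not, with or without boundary.

* Künneth formula for the extended L²-Betti numbers (Lück): `b_n(M × N) = ∑ b_i(M) b_j(N)`, `i + j = n`, with `0 ∞ = 0`.
* The real line is contractible: `b_0 = 1`, `b_i = 0` for `i > 0`.
* Let `F` be a surface of infinite type (for example, the plane without the integers); its fundamental group is free of infinite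
  rank, so `b_1 = ∞` and `b_i = 0` for `i ≠ 1`.
-/

set_option autoImplicit false

namespace Pool.Agent.Results.MP_4f4d9f_gt.FinitenessSuffices

open ENNReal

universe u

/-- The connected aspherical manifolds with their L²-Betti numbers, with the known facts that are used. -/
structure L2Theory where
  /-- the connected aspherical manifolds -/
  Mfd : Type u
  /-- the dimension -/
  dim : Mfd → ℕ
  /-- the L²-Betti numbers -/
  b : Mfd → ℕ → ℝ≥0∞
  /-- the product of two manifolds -/
  prod : Mfd → Mfd → Mfd
  dim_prod : ∀ M N, dim (prod M N) = dim M + dim N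
  kunneth : ∀ M N n, b (prod M N) n = ∑ i ∈ Finset.range (n + 1), b M i * b N (n - i)
  /-- the real line -/
  line : Mfd
  dim_line : dim line = 1
  b_line_zero : b line 0 = 1
  b_line : ∀ i, i ≠ 0 → b line i = 0
  /-- a surface of infinite type -/
  surf : Mfd
  dim_surf : dim surf = 2
  b_surf_one : b surf 1 = ⊤
  b_surf : ∀ i, i ≠ 1 → b surf i = 0

variable (T : L2Theory.{u})

/-- Q1: the L²-Betti numbers above the middle dimension vanish. -/
def Vanishing : Prop := ∀ (M : T.Mfd) (k : ℕ), T.dim M < 2 * k → T.b M k = 0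

/-- For each `m ∈ D` and each aspherical manifold of dimension `2 m - 1` the L²-Betti number `b_m` is finite. -/
def FiniteAbove (D : Set ℕ) : Prop := ∀ m ∈ D, ∀ M : T.Mfd, T.dim M + 1 = 2 * m → T.b M m ≠ ⊤

/-- For each `m ∈ D` and each aspherical manifold of dimension `2 m - 1` the L²-Betti number `b_m` is zero. -/
def ZeroAbove (D : Set ℕ) : Prop := ∀ m ∈ D, ∀ M : T.Mfd, T.dim M + 1 = 2 * m → T.b M m = 0

variable {T}

lemma b_prod_line (M : T.Mfd) (k : ℕ) : T.b (T.prod M T.line) k = T.b M k := by
  rw [T.kunneth]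
  rw [Finset.sum_eq_single_of_mem k (by simp)]
  · rw [Nat.sub_self, T.b_line_zero, mul_one]
  · intro i hi hne
    rw [Finset.mem_range] at hi
    rw [T.b_line (k - i) (by omega), mul_zero]

lemma b_prod_surf (M : T.Mfd) (k : ℕ) : T.b (T.prod M T.surf) (k + 1) = T.b M k * ⊤ := by
  rw [T.kunneth]
  rw [Finset.sum_eq_single_of_mem k (by simp)]
  · rw [Nat.add_sub_cancel_left, T.b_surf_one]
  · intro i hi hne
    rw [Finset.mem_range] at hi
    rw [T.b_surf (k + 1 - i) (by omega), mul_zero]

/-- crossing with lines -/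
lemma lines (k : ℕ) : ∀ (j : ℕ) (M : T.Mfd), T.b M k ≠ 0 → ∃ N : T.Mfd, T.dim N = T.dim M + j ∧ T.b N k ≠ 0 := by
  intro j
  induction j with
  | zero => exact fun M h => ⟨M, rfl, h⟩
  | succ j ih =>
    intro M h
    obtain ⟨N, h1, h2⟩ := ih M h
    refine ⟨T.prod N T.line, ?_, ?_⟩
    · rw [T.dim_prod, T.dim_line, h1, add_assoc]
    · rwa [b_prod_line]

/-- crossing with surfaces of infinite type -/
lemma surfs : ∀ (j k : ℕ) (M : T.Mfd), T.b M k ≠ 0 →
    ∃ N : T.Mfd, T.dim N = T.dim M + 2 * (j + 1) ∧ T.b N (k + (j + 1)) = ⊤ := by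
  intro j
  induction j with
  | zero =>
    intro k M h
    refine ⟨T.prod M T.surf, ?_, ?_⟩
    · rw [T.dim_prod, T.dim_surf]
    · rw [zero_add, b_prod_surf, ENNReal.mul_top h]
  | succ j ih =>
    intro k M h
    obtain ⟨N, h1, h2⟩ := ih k M h
    refine ⟨T.prod N T.surf, ?_, ?_⟩
    · rw [T.dim_prod, T.dim_surf, h1]; ring
    · rw [← add_assoc, b_prod_surf, h2, ENNReal.top_mul_top]

variable (T)

/-- Let `D` be an infinite set of natural numbers. The following are equivalent: (1) Q1; (2) `b_m(M) = 0` for all `m ∈ D` and all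
aspherical manifolds `M` of dimension `2 m - 1`; (3) `b_m(M) < ∞` for all `m ∈ D` and all aspherical manifolds `M` of dimension
`2 m - 1`. -/
theorem result (D : Set ℕ) (hD : D.Infinite) : List.TFAE [Vanishing T, ZeroAbove T D, FiniteAbove T D] := by
  tfae_have 1 → 2 := fun h m _ M hM => h M m (by omega)
  tfae_have 2 → 3 := fun h m hm M hM => by rw [h m hm M hM]; exact ENNReal.zero_ne_top
  tfae_have 3 → 1 := by
    intro h M k hk
    by_contra hne
    obtain ⟨N, h1, h2⟩ := lines k (2 * k - 1 - T.dim M) M hne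
    obtain ⟨m, hm, hmk⟩ := hD.exists_gt k
    obtain ⟨P, h3, h4⟩ := surfs (m - k - 1) k N h2
    refine h m hm P ?_ ?_
    · rw [h3, h1]; omega
    · have : k + (m - k - 1 + 1) = m := by omega
      rwa [this] at h4
  tfae_finish

end Pool.Agent.Results.MP_4f4d9f_gt.FinitenessSuffices
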