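import Mathlib
import Pool.Agent.U474.FT.Opt
import Pool.Agent.U410.CO.Hv
import Pool.Agent.N496.CV.L2Pf
import Pool.Agent.N496.CV.Euler

/-!
# The vertex bound for the `L²`-Betti numbers of all covers, and its equality case

Let `L` be a flag triangulation of the sphere of dimension `n - 1` with `N` vertices, and let `M` be the closed
aspherical `n`-manifold with the fundamental group `Γ = ker (W G → (ℤ/2)^V)`, which is tiled by right-angled cells with
`N` mirrors (`W G` is the right-angled Coxeter group of the 1-skeleton `G` of `L`). Always `N ≥ 2 n`. The connected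
covers of `M`, compact or not, are the aspherical manifolds with the fundamental groups `K ≤ Γ`.

It was known (library of helper410, start file library N13) that all `L²`-Betti numbers of all these covers vanish in the
degrees `k > N - 2 n`. We show that they also vanish in the degree `k = N - 2 n`, unless `L` is a join of pentagons
and pairs of points (that is, `M` has a finite cover which is a product of surfaces and circles). For these `L` the
combinatorial bound `N - 2 n` is optimal. Consequences:

* If `N ≤ 2 n + n / 2 + 1` (integer part), that is `N ≤ 5 m + 1` for `n = 2 m` and `N ≤ 5 m + 3` for `n = 2 m + 1`, then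
  the conjecture of Davis and Okun holds for all covers of `M`: their `L²`-Betti numbers above the degree `n / 2` vanish.
* If `n = 2 m` and `N ≤ 5 m`, and `L` is not the join of `m` pentagons, then the `L²`-Betti numbers of all
  covers of `M` in the degrees `≥ m` vanish. So all `L²`-Betti numbers and the Euler characteristics of the finite covers
  vanish, and the Singer conjecture also holds for all the Poincare duality groups `K ≤ Γ` of codimension at most two,
  for example the fundamental groups of the `π_1`-injective closed aspherical manifolds of codimension two in the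
  covers of `M`.

More generally this holds for all flag normal pseudo-manifolds `L`.

Proof. Let `C` be a join factor of `L` which is not a join, of dimension `d - 1`. If the bound `N - 2 n` is optimal for `L`
then the bound `|C| - 2 d` is optimal for `C`. But `|C| ≥ 3 d - 1`; if `|C| = 3 d - 1` then `d / 2` is also a bound (library
`U410/CO` of helper410), and the dimension shows that `d - 1` is always a bound. So `d ≤ 2` and `C` is a pair or a
pentagon. Conversely each pentagon contains three vertices, one of which is not adjacent to the others, and a
complex with the elimination bound `t` contains no `t + 1` such triples which are adjacent to each other.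
-/

set_option autoImplicit false

namespace Pool.Agent.Results.MP_4f4d9f_gt.MirrorRigidity

open Pool.Agent.W907.SG Pool.Agent.W461.SGN Pool.Agent.N496.CV
open Pool.Agent.U410.CO (Th)
open Pool.Agent.W497.FS (NP comps)
open Pool.Agent.U474.FT

/-- The complex on the set `X` is the join of `s` pentagons and of pairs of nonadjacent vertices: all its join
factors `C` have two vertices and are of this kind (`NP G 1 C`) or have five vertices and are cycles (`NP G 2 C`), and
exactly `s` have five vertices. -/
def PentagonJoin {V : Type} [DecidableEq V] (G : SimpleGraph V) (X : Finset V) (s : ℕ) : Prop :=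
  (∀ C ∈ comps G X, (C.card = 2 ∧ NP G 1 C) ∨ (C.card = 5 ∧ NP G 2 C)) ∧
    {C | C ∈ comps G X ∧ C.card = 5}.ncard = s

/-- **Result.** (1) Let the complex on the set `X` of vertices of `G` be a flag normal pseudo-manifold of dimension `n - 1`
with at most `2 n + t + 1` vertices. It has the elimination bound `t`, unless it is the join of `t + 1` pentagons and of
pairs; these joins do not have the bound `t`. (2) Let the flag complex of `G` be a normal pseudo-manifold of
dimension `n - 1` with at most `2 n + t + 1` vertices, but not the join of `t + 1` pentagons and of pairs. Then for all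
subgroups `K` of `ker (W G → (ℤ/2)^V)`, of finite or infinite index, finitely generated or not, the `L²`-Betti
numbers of `K` in the degrees `k > t` are zero. If `K` is a Poincare duality group of dimension `q ≥ 2 t` (of
type FL) then all its `L²`-Betti numbers in the degrees `k ≠ q / 2` are zero, and `(-1)^(q/2) χ(K) ≥ 0` if `q` is even, for
the Euler characteristic computed by any finite free resolution; if `q > 2 t` then all its `L²`-Betti numbers are
zero, and `χ(K) = 0`. (3) If the flag complex of `G` is a normal pseudo-manifold of dimension `n - 1` with at most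
`2 n + ⌊n / 2⌋ + 1` vertices then for all subgroups `K` of `ker (W G → (ℤ/2)^V)` and all `k > n / 2` the `k`-th `L²`-Betti
number of `K` is zero. -/
theorem result :
    (∀ (n t : ℕ) (V : Type) [Fintype V] [LinearOrder V] (G : SimpleGraph V) (X : Finset V), NP G n X →
      X.card ≤ 2 * n + (t + 1) → (¬ Th G t X ↔ PentagonJoin G X (t + 1))) ∧
    (∀ (n t : ℕ) (V : Type) [Fintype V] [LinearOrder V] (G : SimpleGraph V), NP G n (Finset.univ : Finset V) →
      Fintype.card V ≤ 2 * n + (t + 1) → ¬ PentagonJoin G (Finset.univ : Finset V) (t + 1) →
      ∀ K : Subgroup (W G), K ≤ (th G).ker →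
        (∀ k : ℕ, t < k → HasL2Betti K k 0) ∧
        ∀ q : ℕ, 2 * t ≤ q → Nonempty (PD K q) →
          (∀ k : ℕ, 2 * k ≠ q → HasL2Betti K k 0) ∧
          (∀ d : ℕ, q = 2 * d → ∀ (C : V7N.FreeRes K) (p : ℕ), (∀ i, p < i → C.r i = 0) →
            0 ≤ (-1 : ℤ) ^ d * ∑ i ∈ Finset.range (p + 1), (-1 : ℤ) ^ i * (C.r i : ℤ)) ∧
          (2 * t < q → (∀ k : ℕ, HasL2Betti K k 0) ∧
            ∀ (C : V7N.FreeRes K) (p : ℕ), (∀ i, p < i → C.r i = 0) →
              ∑ i ∈ Finset.range (p + 1), (-1 : ℤ) ^ i * (C.r i : ℤ) = 0)) ∧
    (∀ (n : ℕ) (V : Type) [Fintype V] [LinearOrder V] (G : SimpleGraph V), NP G n (Finset.univ : Finset V) →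
      Fintype.card V ≤ 2 * n + (n / 2 + 1) → ∀ K : Subgroup (W G), K ≤ (th G).ker →
        ∀ k : ℕ, n < 2 * k → HasL2Betti K k 0) := by
  classical
  have key : ∀ (n t : ℕ) (V : Type) [Fintype V] [LinearOrder V] (G : SimpleGraph V) (X : Finset V), NP G n X →
      X.card ≤ 2 * n + (t + 1) → (¬ Th G t X ↔ PentagonJoin G X (t + 1)) := by
    intro n t V _ _ G X h hX
    have e : {C | C ∈ comps G X ∧ C.card = 5}.ncard = ((comps G X).filter fun C => C.card = 5).card := by
      rw [← Set.ncard_coe_finset]
      congr 1
      ext C
      simp
    rw [rigid_iff h hX, PentagonJoin, e]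
    constructor
    · rintro ⟨h1, h2⟩
      exact ⟨h1, by convert h2⟩
    · rintro ⟨h1, h2⟩
      exact ⟨h1, by convert h2⟩
  refine ⟨key, ?_, ?_⟩
  · intro n t V _ _ G hN hc hP K hK
    have hT : Th G t (Finset.univ : Finset V) := by
      by_contra hn
      exact hP ((key n t V G _ hN (by rwa [Finset.card_univ])).1 hn)
    have h1 : ∀ k : ℕ, t < k → VN831.l2Betti K k = 0 := fun k hk => Pool.Agent.U410.CO.l2_th hT K hK k hk
    have hz : ∀ k : ℕ, VN831.l2Betti K k = 0 → HasL2Betti K k 0 := by
      intro k h0
      have h := hasL2Betti K k
      rwa [h0] at h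
    refine ⟨fun k hk => hz k (h1 k hk), fun q hq hPD => ?_⟩
    obtain ⟨P⟩ := hPD
    have h0 : ∀ k : ℕ, 2 * k ≠ q → VN831.l2Betti K k = 0 := by
      intro k hk
      rcases Nat.lt_or_gt_of_ne hk with hk | hk
      · exact pd_zero P k (q - k) (by omega) (h1 (q - k) (by omega))
      · exact h1 k (by omega)
    refine ⟨fun k hk => hz k (h0 k hk), ?_, fun hq' => ?_⟩
    · rintro d rfl C p hp
      exact euler_sign C p d hp fun k hk => h0 k (by omega)
    · have hall : ∀ k : ℕ, VN831.l2Betti K k = 0 := by
        intro k
        by_cases hk : 2 * k = q
        · exact h1 k (by omega)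
        · exact h0 k hk
      refine ⟨fun k => hz k (hall k), fun C p hp => ?_⟩
      have e0 := euler_sign C p 0 hp fun k _ => hall k
      have e1 := euler_sign C p 1 hp fun k _ => hall k
      simp only [pow_zero, one_mul, pow_one, neg_mul, Left.nonneg_neg_iff] at e0 e1
      omega
  · intro n V _ _ G hN hc K hK k hk
    have hT : Th G (n / 2) (Finset.univ : Finset V) := th_half hN (by rwa [Finset.card_univ])
    have h := hasL2Betti K k
    rwa [Pool.Agent.U410.CO.l2_th hT K hK k (by omega)] at h

end Pool.Agent.Results.MP_4f4d9f_gt.MirrorRigidity
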