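import Pool.Agent.U722.FF.Lb6

/-!
# Aspherical manifolds, compact or not: two-by-two matrices over `ℤ[x_1, ..., x_n]`

Let `M` be an aspherical `m`-manifold, not necessarily compact, `π = π_1(M)`. Davis and Okun ask whether
`b_k(M) = 0` for `k > m / 2`. We show `b_k(π) = 0` for all `k ≥ 2` if `π` is isomorphic to a subgroup of
`GL_2(ℤ[x_1, ..., x_n])`, finitely generated or not (`n` may also vary with the finitely generated
subgroups of a torsion-free `π`). So the answer is yes for all these manifolds (`m ≥ 2`; if `m = 1` then
`π` is trivial or infinite cyclic). For torsion-free `π` this holds for the homology with coefficients in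
every ring `U` with a homomorphism `c` from `π` such that `1 - c g` is invertible for all `g ≠ 1`, for
example in division rings.

Outline. A finitely generated torsion-free subgroup of `GL_2(ℤ[x_1, ..., x_n])` acts on a tree with
finitely many orbits, the stabilizers of the edges are finitely generated abelian, those of the vertices
are finitely generated abelian or free (`Pool.Agent.U722.FF.Str`). With such coefficients `U` the
homology of a nontrivial torsion-free abelian group vanishes in all degrees, and the one of a free group
in the degrees `≥ 2`. Directed unions and transfer give the general case.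
-/

set_option autoImplicit false

namespace Pool.Agent.Results.MP_4f4d9f_gt.PolynomialMatrixGroups

open Pool.Agent.N496.CV

/-- `G` is isomorphic to a subgroup of `GL_2(ℤ[x_1, ..., x_n])` -/
def Lin (n : ℕ) (G : Type) [Group G] : Prop :=
  ∃ ρ : G →* GL (Fin 2) (MvPolynomial (Fin n) ℤ), Function.Injective ρ

/-- every finitely generated subgroup is torsion-free and isomorphic to a subgroup of
`GL_2(ℤ[x_1, ..., x_n])` for some `n` -/
def LocLin (G : Type) [Group G] : Prop :=
  (∀ g : G, ∀ k : ℕ, 0 < k → g ^ k = 1 → g = 1) ∧ ∀ H : Subgroup G, Group.FG H → ∃ n, Lin n H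

/-- (1) Let `G` be isomorphic to a subgroup of `GL_2(ℤ[x_1, ..., x_n])`. Then the `L²`-Betti numbers of
`G` vanish in all degrees `k ≥ 2`. (2) This also holds if `G` is torsion-free and locally isomorphic to
such groups; moreover the homology `Tor_k(U, ℤ)` over `ℤG` with coefficients in every ring `U` with a
homomorphism `c : G → U` such that `1 - c g` is invertible for all `g ≠ 1` vanishes for all `k ≥ 2`. -/
theorem result :
    (∀ (n : ℕ) (G : Type) [Group G], Lin n G → ∀ k : ℕ, 2 ≤ k → HasL2Betti G k 0) ∧
    (∀ (G : Type) [Group G], LocLin G → (∀ k : ℕ, 2 ≤ k → HasL2Betti G k 0) ∧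
      ∀ (U : Type) [Ring U] (c : G →* U), (∀ g : G, g ≠ 1 → IsUnit (1 - c g)) →
        ∀ k : ℕ, 2 ≤ k → CategoryTheory.Limits.IsZero (homR c k)) := by
  refine ⟨fun n G _ ⟨ρ, hρ⟩ k hk => U722.FF.has0 (U722.FF.L2SUB n G ρ hρ k hk), ?_⟩
  rintro G _ ⟨h1, h2⟩
  exact ⟨fun k hk => U722.FF.has0 (U722.FF.L2LOC G h1 h2 k hk),
    fun U _ c hc k hk => U722.FF.HZLOC G h1 h2 U c hc k hk⟩

end Pool.Agent.Results.MP_4f4d9f_gt.PolynomialMatrixGroups
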